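import Pool.Agent.H94.EH.H91.EHA.GFinA
import Pool.Agent.H94.EH.H91.EHA.GTwoB

/-!
# Arbitrary sets of residue classes: assembly over all moduli
-/

set_option autoImplicit false

namespace Pool.Agent.H91.EHA

open Finset
open Pool.Agent.H91.PK

/-- one dyadic block -/
theorem gblock (θ ε : ℝ) (hθ : θ < 1) (hε : 0 < ε) (hε2 : ε ≤ 1 / 2) (hεθ : ε ≤ 1 - θ) (c : ℕ) :
    ∃ x0 : ℕ, ∀ x : ℕ, x0 ≤ x → ∀ Q : ℕ, ∀ H : ℝ, ∀ S : ℕ → Finset ℕ, 1 ≤ H → 1 ≤ Q →
      (Q : ℝ) ≤ (x : ℝ) ^ θ → Fam x Q ε H S → (Q : ℝ) ^ 2 ≤ H * (x : ℝ) ^ (1 - ε) →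
      ∑ q ∈ Ioc Q (2 * Q), ∑ a ∈ (S q).filter (fun a => Nat.Coprime a q),
        |err x q (a : ZMod q)| ≤ H * x / Real.log x ^ c := by
  obtain ⟨x1, hx1⟩ := gtwo_range θ ε hθ hε hε2 hεθ (c + 1)
  obtain ⟨x3, hx3⟩ := gerr_of_psi θ ε hθ hε hεθ c
  obtain ⟨x4, hx4⟩ := pnt' (c + 5)
  refine ⟨max x1 (max x3 x4), ?_⟩
  intro x hx Q H S hH hQ1 hQ hFam hQH
  have e1 : x1 ≤ x := le_trans (le_max_left _ _) hx
  have e3 : x3 ≤ x := le_trans (le_trans (le_max_left _ _) (le_max_right _ _)) hx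
  have e4 : x4 ≤ x := le_trans (le_trans (le_max_right _ _) (le_max_right _ _)) hx
  exact hx3 x e3 Q H S hH hQ1 hQ hFam hQH (fun t ht => hx4 x e4 t ht)
    (fun t ht => hx1 x e1 t Q H S ht hQ1 hQ hH hFam hQH)

/-- All moduli.  The family is a sub-family for each dyadic block. -/
theorem gmain (θ ε : ℝ) (hθ : θ < 1) (hε : 0 < ε) (hε2 : ε ≤ 1 / 2) (hεθ : ε ≤ 1 - θ) (c : ℕ) :
    ∃ x0 : ℕ, ∀ x : ℕ, x0 ≤ x → ∀ H : ℝ, ∀ S : ℕ → Finset ℕ, 1 ≤ H →
      (∀ Q : ℕ, 1 ≤ Q → Q ≤ x → Fam x Q ε H S) →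
      ∑ q ∈ (Icc 1 ⌊(x : ℝ) ^ θ⌋₊).filter (fun q : ℕ => (q : ℝ) ^ 2 ≤ H * (x : ℝ) ^ (1 - ε)),
        ∑ a ∈ (S q).filter (fun a => Nat.Coprime a q), |err x q (a : ZMod q)|
          ≤ H * x / Real.log x ^ c := by
  obtain ⟨x1, hx1⟩ := gblock θ ε hθ hε hε2 hεθ (c + 2)
  obtain ⟨x2, hx2⟩ := log_ge 4
  refine ⟨max (max x1 x2) 3, fun x hx H S hH hFam => ?_⟩
  have e1 : x1 ≤ x := le_trans (le_trans (le_max_left _ _) (le_max_left _ _)) hx
  have e2 : x2 ≤ x := le_trans (le_trans (le_max_right _ _) (le_max_left _ _)) hx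
  have e3 : 3 ≤ x := le_trans (le_max_right _ _) hx
  have hx3' : (3 : ℝ) ≤ x := by exact_mod_cast e3
  have hxpos : (0 : ℝ) < x := by linarith
  have hxone : (1 : ℝ) ≤ x := by linarith
  set L : ℝ := Real.log x with hL
  have hL4 : 4 ≤ L := hx2 x e2
  have hLpos : 0 < L := by linarith
  have hHpos : (0 : ℝ) < H := by linarith
  set M : ℕ := ⌊(x : ℝ) ^ θ⌋₊ with hM
  set J : ℕ := Nat.log 2 x + 1 with hJ
  have hMr : (M : ℝ) ≤ (x : ℝ) ^ θ := Nat.floor_le (by positivity)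
  have hMx : M ≤ x := by
    have : (M : ℝ) ≤ x := by
      refine hMr.trans ?_
      calc (x : ℝ) ^ θ ≤ (x : ℝ) ^ (1 : ℝ) := Real.rpow_le_rpow_of_exponent_le hxone hθ.le
        _ = x := Real.rpow_one _
    exact_mod_cast this
  have hMJ : M < 2 ^ J := lt_of_le_of_lt hMx (Nat.lt_pow_succ_log_self (by norm_num) x)
  have hdy := dyadic_cover
    (fun q => ∑ a ∈ (S q).filter (fun a => Nat.Coprime a q),
      |err x q (a : ZMod q)|) (fun q => Finset.sum_nonneg fun a _ => abs_nonneg _) M J hMJ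
    (fun q : ℕ => (q : ℝ) ^ 2 ≤ H * (x : ℝ) ^ (1 - ε))
    (by
      apply Finset.sum_eq_zero
      intro a _
      rw [err_one, abs_zero]) (H * x / L ^ (c + 2)) (by positivity)
    (by
      intro j _ q hqM hqP hjq hqj
      have hjq' : ((2 ^ j : ℕ) : ℝ) < q := by exact_mod_cast hjq
      have hqr : (q : ℝ) ≤ (x : ℝ) ^ θ := by
        refine le_trans ?_ hMr
        exact_mod_cast hqM
      apply hx1 x e1 (2 ^ j) H S hH Nat.one_le_two_pow (hjq'.le.trans hqr)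
      · exact hFam _ Nat.one_le_two_pow (hjq.le.trans (hqM.trans hMx))
      · refine le_trans ?_ hqP
        exact pow_le_pow_left₀ (by positivity) hjq'.le 2)
  refine hdy.trans ?_
  -- `J ≤ L^2`
  have hJL : (J : ℝ) ≤ L ^ 2 := by
    have h1 : ((Nat.log 2 x : ℕ) : ℝ) * Real.log 2 ≤ L := by
      have h2 : (2 : ℝ) ^ (Nat.log 2 x) ≤ x := by
        exact_mod_cast Nat.pow_log_le_self 2 (by omega : x ≠ 0)
      have h3 := Real.log_le_log (by positivity) h2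
      rwa [Real.log_pow] at h3
    have h2 := Real.log_two_gt_d9
    have h3 : ((Nat.log 2 x : ℕ) : ℝ) ≤ 2 * L := by
      have h4 : (0 : ℝ) ≤ ((Nat.log 2 x : ℕ) : ℝ) := by positivity
      nlinarith
    rw [hJ]
    push_cast
    nlinarith
  calc (J : ℝ) * (H * x / L ^ (c + 2)) ≤ L ^ 2 * (H * x / L ^ (c + 2)) := by
        apply mul_le_mul_of_nonneg_right hJL (by positivity)
    _ = H * x / L ^ c := by
        rw [pow_add]
        field_simp

/-! ### Sets of classes -/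

/-- representatives -/
noncomputable def reps (q : ℕ) (T : Finset (ZMod q)) : Finset ℕ := T.image ZMod.val

theorem fam_reps (x Q : ℕ) (ε H : ℝ) (hε : 0 < ε) (hx : 1 ≤ x) (hH : 0 ≤ H)
    (T : (q : ℕ) → Finset (ZMod q)) (hT : ∀ q ∈ Ioc Q (2 * Q), ((T q).card : ℝ) ≤ H) :
    Fam x Q ε H (fun q => reps q (T q)) := by
  have hcard : ∀ q ∈ Ioc Q (2 * Q), ((reps q (T q)).card : ℝ) ≤ H := by
    intro q hq
    refine le_trans ?_ (hT q hq)
    exact_mod_cast Finset.card_image_le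
  refine ⟨hcard, ?_⟩
  have h1 : ∀ q ∈ Ioc Q (2 * Q),
      ((((reps q (T q)) ×ˢ (reps q (T q))).filter (fun p => p.1 ≡ p.2 [MOD q])).card : ℝ)
        ≤ H := by
    intro q hq
    have hq0 : 0 < q := by
      rw [mem_Ioc] at hq
      omega
    haveI : NeZero q := ⟨hq0.ne'⟩
    refine le_trans ?_ (hcard q hq)
    have h2 : ((reps q (T q)) ×ˢ (reps q (T q))).filter (fun p => p.1 ≡ p.2 [MOD q]) ⊆
        (reps q (T q)).image (fun a => (a, a)) := by
      intro p hp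
      rw [mem_filter, mem_product] at hp
      obtain ⟨⟨hp1, hp2⟩, hp3⟩ := hp
      rw [mem_image]
      refine ⟨p.1, hp1, ?_⟩
      have hlt : ∀ a ∈ reps q (T q), a < q := by
        intro a ha
        unfold reps at ha
        rw [mem_image] at ha
        obtain ⟨b, _, rfl⟩ := ha
        exact ZMod.val_lt b
      have h3 : p.1 = p.2 := by
        have := hp3
        unfold Nat.ModEq at this
        rwa [Nat.mod_eq_of_lt (hlt _ hp1), Nat.mod_eq_of_lt (hlt _ hp2)] at this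
      exact Prod.ext rfl h3
    have h4 := (card_le_card h2).trans card_image_le
    exact_mod_cast h4
  refine (sum_le_sum h1).trans ?_
  rw [sum_const, Nat.card_Ioc, nsmul_eq_mul]
  have h5 : 2 * Q - Q = Q := by omega
  rw [h5]
  have hx1 : (1 : ℝ) ≤ x := by exact_mod_cast hx
  have h6 : 1 ≤ (x : ℝ) ^ (ε / 8) := Real.one_le_rpow hx1 (by linarith)
  have h7 : 0 ≤ (Q : ℝ) * H := by positivity
  have h8 : 0 ≤ H ^ 2 := sq_nonneg H
  nlinarith

/-- The sum over arbitrary sets of at most `H` reduced classes for each modulus. -/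
theorem classes_sum (θ ε : ℝ) (hθ : θ < 1) (hε : 0 < ε) (c : ℕ) :
    ∃ x0 : ℕ, ∀ x : ℕ, x0 ≤ x → ∀ H : ℝ, ∀ T : (q : ℕ) → Finset (ZMod q), 1 ≤ H →
      (∀ q, ((T q).card : ℝ) ≤ H) → (∀ q, ∀ a ∈ T q, IsUnit a) →
      ∑ q ∈ (Icc 1 ⌊(x : ℝ) ^ θ⌋₊).filter (fun q : ℕ => (q : ℝ) ^ 2 ≤ H * (x : ℝ) ^ (1 - ε)),
        ∑ a ∈ T q, |err x q a| ≤ H * x / Real.log x ^ c := by
  set e : ℝ := min ε (min (1 / 2) (1 - θ)) with he
  have he0 : 0 < e := lt_min hε (lt_min (by norm_num) (by linarith))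
  have he1 : e ≤ ε := min_le_left _ _
  have he2 : e ≤ 1 / 2 := (min_le_right _ _).trans (min_le_left _ _)
  have he3 : e ≤ 1 - θ := (min_le_right _ _).trans (min_le_right _ _)
  obtain ⟨x1, hx1⟩ := gmain θ e hθ he0 he2 he3 c
  refine ⟨max x1 1, fun x hx H T hH hT hunit => ?_⟩
  have e1 : x1 ≤ x := le_trans (le_max_left _ _) hx
  have e2 : 1 ≤ x := le_trans (le_max_right _ _) hx
  have hxone : (1 : ℝ) ≤ x := by exact_mod_cast e2
  have h1 := hx1 x e1 H (fun q => reps q (T q)) hH (fun Q _ _ =>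
    fam_reps x Q e H he0 e2 (by linarith) T (fun q _ => hT q))
  refine le_trans ?_ h1
  have h2 : (Icc 1 ⌊(x : ℝ) ^ θ⌋₊).filter
        (fun q : ℕ => (q : ℝ) ^ 2 ≤ H * (x : ℝ) ^ (1 - ε)) ⊆
      (Icc 1 ⌊(x : ℝ) ^ θ⌋₊).filter
        (fun q : ℕ => (q : ℝ) ^ 2 ≤ H * (x : ℝ) ^ (1 - e)) := by
    intro q hq
    rw [mem_filter] at hq ⊢
    refine ⟨hq.1, hq.2.trans ?_⟩
    apply mul_le_mul_of_nonneg_left _ (by linarith)
    exact Real.rpow_le_rpow_of_exponent_le hxone (by linarith)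
  refine le_trans ?_ (sum_le_sum_of_subset_of_nonneg h2
    (fun q _ _ => sum_nonneg fun a _ => abs_nonneg _))
  refine sum_le_sum fun q hq => le_of_eq ?_
  have hq0 : 0 < q := (mem_Icc.1 (mem_filter.1 hq).1).1
  haveI : NeZero q := ⟨hq0.ne'⟩
  -- the sum over representatives
  have h3 : (reps q (T q)).filter (fun a => Nat.Coprime a q) = reps q (T q) := by
    apply filter_true_of_mem
    intro a ha
    unfold reps at ha
    rw [mem_image] at ha
    obtain ⟨b, hb, rfl⟩ := ha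
    have h4 := hunit q b hb
    rw [← ZMod.natCast_zmod_val b] at h4
    exact (ZMod.isUnit_iff_coprime _ _).1 h4
  rw [h3]
  unfold reps
  rw [sum_image]
  · refine sum_congr rfl fun a _ => ?_
    rw [ZMod.natCast_zmod_val]
  · intro a _ b _ hab
    exact ZMod.val_injective q hab

end Pool.Agent.H91.EHA
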